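import Pool.Agent.W770.KP.Stm

/-!
# The level bound (project KP, problem MP_697303_an)
-/

set_option autoImplicit false

open scoped Classical
open Pool.Agent.W770.KP

namespace Pool.Agent.W212.KP

section poly

variable {F : Type} [Field F]

theorem eval_dehom {m : ℕ} (B : MvPolynomial (Fin (m+1)) F) (y : Fin m → F) :
    MvPolynomial.eval y (dehom B) = MvPolynomial.eval (Fin.cons 1 y : Fin (m+1) → F) B := by
  unfold dehom
  induction B using MvPolynomial.induction_on with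
  | C a => simp
  | add p q hp hq => rw [map_add, map_add, map_add, hp, hq]
  | mul_X p i hp =>
    rw [map_mul, map_mul, map_mul, hp, MvPolynomial.aeval_X]
    congr 1
    refine Fin.cases ?_ (fun i => ?_) i <;> simp

theorem dehom_lc {m : ℕ} {ι : Type} [Fintype ι] (B : ι → MvPolynomial (Fin (m+1)) F) (c : ι → F) :
    dehom (lc B c) = lc (fun s => dehom (B s)) c := by
  unfold dehom lc
  rw [map_sum]
  refine Finset.sum_congr rfl fun s _ => ?_
  rw [map_mul, MvPolynomial.aeval_C]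
  rfl

theorem dehom_eq_sum {m : ℕ} (B : MvPolynomial (Fin (m+1)) F) :
    dehom B = ∑ s ∈ B.support, MvPolynomial.monomial (Finsupp.tail s) (B.coeff s) := by
  unfold dehom
  conv_lhs => rw [B.as_sum]
  rw [map_sum]
  refine Finset.sum_congr rfl fun s _ => ?_
  rw [MvPolynomial.aeval_monomial, MvPolynomial.monomial_eq, Finsupp.prod_fintype _ _ (by simp),
    Finsupp.prod_fintype _ _ (by simp), Fin.prod_univ_succ]
  simp only [Fin.cons_zero, one_pow, one_mul, Fin.cons_succ, Finsupp.tail_apply]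
  rfl

theorem degree_tail_le {m : ℕ} (s : Fin (m+1) →₀ ℕ) : s.degree = s 0 + (Finsupp.tail s).degree := by
  rw [Finsupp.degree_eq_sum, Finsupp.degree_eq_sum, Fin.sum_univ_succ]
  simp only [Finsupp.tail_apply]

theorem totalDegree_dehom_le {m : ℕ} (B : MvPolynomial (Fin (m+1)) F) (d : ℕ)
    (hB : B.IsHomogeneous d) : (dehom B).totalDegree ≤ d := by
  rw [dehom_eq_sum]
  refine MvPolynomial.totalDegree_finsetSum_le fun s hs => ?_
  refine (MvPolynomial.totalDegree_monomial_le _ _).trans ?_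
  have h1 : s.degree = d := by
    have := hB (MvPolynomial.mem_support_iff.mp hs)
    rw [Finsupp.degree_eq_weight_one]
    exact this
  have h2 := degree_tail_le s
  have h3 : ((Finsupp.tail s).sum fun _ => id) = (Finsupp.tail s).degree := rfl
  rw [h3]
  omega

theorem dehom_ne_zero {m : ℕ} (B : MvPolynomial (Fin (m+1)) F) (d : ℕ) (hB : B.IsHomogeneous d)
    (h0 : B ≠ 0) : dehom B ≠ 0 := by
  obtain ⟨s, hs⟩ := MvPolynomial.support_nonempty.mpr h0
  intro h
  have hdeg : ∀ s ∈ B.support, s.degree = d := fun s hs => by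
    have := hB (MvPolynomial.mem_support_iff.mp hs)
    rw [Finsupp.degree_eq_weight_one]
    exact this
  have h1 : (dehom B).coeff (Finsupp.tail s) = B.coeff s := by
    rw [dehom_eq_sum, MvPolynomial.coeff_sum]
    rw [Finset.sum_eq_single s]
    · rw [MvPolynomial.coeff_monomial, if_pos rfl]
    · intro s' hs' hne
      rw [MvPolynomial.coeff_monomial, if_neg]
      intro heq
      apply hne
      have e1 := hdeg s hs
      have e2 := hdeg s' hs'
      rw [degree_tail_le] at e1 e2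
      rw [heq] at e2
      have e3 : s' 0 = s 0 := by omega
      rw [← Finsupp.cons_tail s', ← Finsupp.cons_tail s, heq, e3]
    · intro hns
      exact absurd hs hns
  rw [h, MvPolynomial.coeff_zero] at h1
  exact MvPolynomial.mem_support_iff.mp hs h1.symm

theorem hc_totalDegree_ne_zero {n : ℕ} (Q : MvPolynomial (Fin n) F) (hQ : Q ≠ 0) :
    MvPolynomial.homogeneousComponent Q.totalDegree Q ≠ 0 := by
  obtain ⟨s, hs, hs'⟩ := Finset.exists_mem_eq_sup Q.support (MvPolynomial.support_nonempty.mpr hQ)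
    (fun s => s.sum fun _ e => e)
  intro h
  have h1 : (MvPolynomial.homogeneousComponent Q.totalDegree Q).coeff s = Q.coeff s := by
    rw [MvPolynomial.coeff_homogeneousComponent, if_pos]
    exact hs'.symm
  rw [h, MvPolynomial.coeff_zero] at h1
  exact MvPolynomial.mem_support_iff.mp hs h1.symm

end poly

theorem lb : S_LL2 → S_ILS → S_HOM → S_TOP → S_CP → S_DIR → S_LB := by
  intro hLL hILS hHOM hTOP hCP hDIR j k hk1 hkj
  refine ⟨2 * (4 * ((j:ℝ) + 1)) ^ j * ((k:ℝ) + 1) ^ k, by positivity, ?_⟩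
  intro F _ _ P hP b Q hQ hQv E hE1 hE4 hEq
  set Z := (Finset.univ : Finset (Fin (j+1) → F)).filter
          (fun y => E < cnt P (b y) (Fin.cons 1 y : Fin (j+2) → F)) with hZ
  have hZmem : ∀ y ∈ Z, E < cnt P (b y) (Fin.cons 1 y : Fin (j+2) → F) := fun y hy =>
    (Finset.mem_filter.mp hy).2
  set q := Fintype.card F with hq
  -- vanishing on the planes gives zeros at infinity
  have hvan : ∀ (R : MvPolynomial (Fin (j+2)) F) (e : ℕ), R.totalDegree ≤ e → e ≤ E →
      (∀ p ∈ P, ∀ x : Fin (j+2) → F, x - p.1 ∈ p.2 → MvPolynomial.eval x R = 0) →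
      ∀ y ∈ Z, MvPolynomial.eval y (dehom (MvPolynomial.homogeneousComponent e R)) = 0 := by
    intro R e hR he hRv y hy
    rw [eval_dehom]
    apply hLL F (j+2) R e hR (b y)
    refine lt_of_le_of_lt he ((hZmem y hy).trans_le ?_)
    unfold cnt
    refine Finset.card_le_card ?_
    intro t ht
    rw [Finset.mem_filter] at ht ⊢
    obtain ⟨-, p, hp, hpt⟩ := ht
    exact ⟨Finset.mem_univ _, hRv p hp _ hpt⟩
  -- the low degree polynomial
  set d := Q.totalDegree with hd
  have hQd := hc_totalDegree_ne_zero Q hQ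
  have hQh := MvPolynomial.homogeneousComponent_isHomogeneous d Q
  have hp0 := dehom_ne_zero _ d hQh hQd
  have hpd := totalDegree_dehom_le _ d hQh
  have hpZ := hvan Q d le_rfl (by omega) hQv
  obtain ⟨u, hu, hul⟩ := hDIR F j _ hp0 d hpd (by omega)
  have huZ : ∀ y : Fin (j+1) → F, (Finset.univ.filter (fun t : F => y + t • u ∈ Z)).card ≤ d := by
    intro y
    refine le_trans (Finset.card_le_card ?_) (hul y)
    intro t ht
    rw [Finset.mem_filter] at ht ⊢
    exact ⟨Finset.mem_univ _, hpZ _ ht.2⟩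
  -- the interpolation families
  set I : Finset ℕ := Finset.Icc ((E+1)/2) E with hI
  have hint : ∀ e : ℕ, ∃ (N : ℕ) (A : Fin N → MvPolynomial (Fin (j+1)) F),
      (∀ s, (A s).totalDegree ≤ e) ∧
      (e ∈ I → ((Z.card : ℝ) * ((e:ℝ) / (2 * ((j:ℝ)+1) * (q : ℝ))) ^ j ≤ (N : ℝ))) ∧
      ∀ c : Fin N → F, (∀ z ∈ Z, MvPolynomial.eval z (lc A c) = 0) → c = 0 := by
    intro e
    by_cases he : e ∈ I
    · have he' := Finset.mem_Icc.mp he
      obtain ⟨N, A, h1, h2, h3⟩ := hILS j F Z u hu d e (by omega) (by omega) huZ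
      exact ⟨N, A, h1, fun _ => h2, h3⟩
    · exact ⟨0, Fin.elim0, fun s => s.elim0, fun h => absurd h he, fun c _ => Subsingleton.elim _ _⟩
  choose N A hA1 hA2 hA3 using hint
  have hB : ∀ (e : ℕ) (s : Fin (N e)), ∃ B : MvPolynomial (Fin (j+2)) F,
      B.IsHomogeneous e ∧ dehom B = A e s := fun e s => hHOM F (j+1) e (A e s) (hA1 e s)
  choose B hB1 hB2 using hB
  -- the dimension count
  have hcount : ∑ e ∈ I, N e ≤ P.card * (E + k).choose k := by
    by_contra hcon
    push Not at hcon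
    have hcard : P.card * (E + k).choose k < Fintype.card ((e : I) × Fin (N (e : ℕ))) := by
      rw [Fintype.card_sigma]
      simp only [Fintype.card_fin]
      rw [Finset.sum_coe_sort I (fun e => N e)]
      exact hcon
    obtain ⟨c, hc0, hcv⟩ := hCP F (j+2) k E ((e : I) × Fin (N (e : ℕ)))
      (fun i => B (i.1 : ℕ) i.2)
      (fun i => (hB1 _ _).totalDegree_le.trans (Finset.mem_Icc.mp i.1.2).2) P hP hcard
    obtain ⟨e, hce, hRd, hRe⟩ := hTOP F (j+2) I N B hB1 c hc0
    apply hce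
    apply hA3 (e : ℕ)
    intro z hz
    have h1 := hvan _ (e : ℕ) hRd (Finset.mem_Icc.mp e.2).2 hcv z hz
    rw [hRe, dehom_lc] at h1
    have h2 : (fun s => dehom (B (e : ℕ) s)) = A (e : ℕ) := funext fun s => hB2 _ s
    rw [h2] at h1
    exact h1
  -- the final estimate
  have hqpos : (0:ℝ) < (q:ℝ) := by
    have : 0 < q := by omega
    exact_mod_cast this
  have hEpos : (0:ℝ) < (E:ℝ) := by exact_mod_cast hE1
  have hlow : (Z.card : ℝ) * ((E:ℝ) / 2) * ((E:ℝ) / (4 * ((j:ℝ) + 1) * (q:ℝ))) ^ j ≤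
      ((∑ e ∈ I, N e : ℕ) : ℝ) := by
    have h1 : ∀ e ∈ I, (Z.card : ℝ) * ((E:ℝ) / (4 * ((j:ℝ) + 1) * (q:ℝ))) ^ j ≤ (N e : ℝ) := by
      intro e he
      refine le_trans ?_ (hA2 e he)
      apply mul_le_mul_of_nonneg_left _ (Nat.cast_nonneg _)
      apply pow_le_pow_left₀ (by positivity)
      have he' := Finset.mem_Icc.mp he
      have h2 : (E:ℝ) ≤ 2 * (e:ℝ) := by
        have : E ≤ 2 * e := by omega
        exact_mod_cast this
      rw [div_le_div_iff₀ (by positivity) (by positivity)]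
      have h3 : 0 ≤ ((j:ℝ)+1) * (q:ℝ) := by positivity
      nlinarith [mul_le_mul_of_nonneg_right h2 h3]
    rw [Nat.cast_sum]
    refine le_trans ?_ (Finset.sum_le_sum h1)
    rw [Finset.sum_const, nsmul_eq_mul]
    have h4 : (E:ℝ) / 2 ≤ (I.card : ℝ) := by
      have : E ≤ 2 * I.card := by
        rw [hI, Nat.card_Icc]
        omega
      have : (E:ℝ) ≤ 2 * (I.card:ℝ) := by exact_mod_cast this
      linarith
    have h5 : 0 ≤ (Z.card : ℝ) * ((E:ℝ) / (4 * ((j:ℝ) + 1) * (q:ℝ))) ^ j := by positivity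
    calc (Z.card : ℝ) * ((E:ℝ) / 2) * ((E:ℝ) / (4 * ((j:ℝ) + 1) * (q:ℝ))) ^ j
        = (E:ℝ) / 2 * ((Z.card : ℝ) * ((E:ℝ) / (4 * ((j:ℝ) + 1) * (q:ℝ))) ^ j) := by ring
      _ ≤ _ := mul_le_mul_of_nonneg_right h4 h5
  have hup : ((∑ e ∈ I, N e : ℕ) : ℝ) ≤ (P.card : ℝ) * ((((k:ℝ) + 1) * (E:ℝ)) ^ k) := by
    refine le_trans (Nat.cast_le.mpr hcount) ?_
    rw [Nat.cast_mul]
    apply mul_le_mul_of_nonneg_left _ (Nat.cast_nonneg _)
    have h1 : (E + k).choose k ≤ ((k + 1) * E) ^ k := by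
      refine (Nat.choose_le_pow _ _).trans ?_
      apply Nat.pow_le_pow_left
      nlinarith
    exact_mod_cast h1
  have hmain := hlow.trans hup
  -- clear denominators
  have hK : (0:ℝ) < (4 * ((j:ℝ) + 1) * (q:ℝ)) ^ j := by positivity
  rw [div_pow, mul_div_assoc', div_le_iff₀ hK] at hmain
  have hEk : (0:ℝ) < (E:ℝ) ^ k := by positivity
  have hsplit : (E:ℝ) ^ (j + 1) = (E:ℝ) ^ (j + 1 - k) * (E:ℝ) ^ k := by
    rw [← pow_add]
    congr 1
    omega
  refine le_of_mul_le_mul_right ?_ hEk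
  have hfin : (Z.card : ℝ) * (E:ℝ) ^ (j + 1) ≤
      2 * ((P.card : ℝ) * ((((k:ℝ) + 1) * (E:ℝ)) ^ k) * (4 * ((j:ℝ) + 1) * (q:ℝ)) ^ j) := by
    have : (Z.card : ℝ) * (E:ℝ) ^ (j + 1) = 2 * ((Z.card : ℝ) * ((E:ℝ) / 2) * (E:ℝ) ^ j) := by
      ring
    rw [this]
    linarith
  calc (Z.card : ℝ) * (E:ℝ) ^ (j + 1 - k) * (E:ℝ) ^ k = (Z.card : ℝ) * (E:ℝ) ^ (j + 1) := by
        rw [hsplit]; ring
    _ ≤ _ := hfin
    _ = _ := by
        rw [mul_pow, mul_pow _ (q:ℝ)]
        ring

end Pool.Agent.W212.KP
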